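import Pool.Agent.SGP.Stmts

/-!
# SGP, rows NXS and GRO
-/

noncomputable section

namespace Pool.Agent.SGP.H32

open Pool.Agent.SGE Pool.Agent.SGP

theorem o_rot (p q r : ℝ × ℝ) : o p q r = o q r p := by
  unfold o; ring

theorem o_same1 (p q : ℝ × ℝ) : o p p q = 0 := by
  unfold o; ring

theorem o_same2 (p q : ℝ × ℝ) : o p q q = 0 := by
  unfold o; ring

theorem o_same3 (p q : ℝ × ℝ) : o p q p = 0 := by
  unfold o; ring

theorem key {V : Type} [DecidableEq V] {c p q v : V} {R : V → Prop} {f : V → ℝ × ℝ}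
    {X : ℝ × ℝ} (hN : Near c p q R f X) (x y z : V) (hx : x ≠ c) (hy : y ≠ c)
    (hz : z ≠ c) (rx : x = v ∨ R x) (ry : y = v ∨ R y) (rz : z = v ∨ R z)
    (hne : o (Function.update f v X x) (Function.update f v X y) (Function.update f v X z) ≠ 0) :
    0 < o (Function.update f v X x) (Function.update f v X y) (Function.update f v X z) *
      o (f (if x = v then c else x)) (f (if y = v then c else y)) (f (if z = v then c else z)) := by
  have up : ∀ u : V, u ≠ v → Function.update f v X u = f u := fun u hu =>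
    Function.update_of_ne hu X f
  have uv : Function.update f v X v = X := Function.update_self v X f
  by_cases h1 : x = v
  · subst h1
    by_cases h2 : y = x
    · subst h2
      exact absurd (o_same1 _ _) hne
    · by_cases h3 : z = x
      · subst h3
        exact absurd (o_same3 _ _) hne
      · have hyz : y ≠ z := by
          rintro rfl
          exact hne (o_same2 _ _)
        rw [uv, up y h2, up z h3, if_pos rfl, if_neg h2, if_neg h3]
        exact hN.near y z (ry.resolve_left h2) (rz.resolve_left h3) hy hz hyz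
  · by_cases h2 : y = v
    · subst h2
      by_cases h3 : z = y
      · subst h3
        exact absurd (o_same2 _ _) hne
      · have hzx : z ≠ x := by
          rintro rfl
          exact hne (o_same3 _ _)
        rw [uv, up x h1, up z h3, if_pos rfl, if_neg h1, if_neg h3]
        rw [o_rot (f x) X (f z), o_rot (f x) (f c) (f z)]
        exact hN.near z x (rz.resolve_left h3) (rx.resolve_left h1) hz hx hzx
    · by_cases h3 : z = v
      · subst h3
        have hxy : x ≠ y := by
          rintro rfl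
          exact hne (o_same1 _ _)
        rw [uv, up x h1, up y h2, if_pos rfl, if_neg h1, if_neg h2]
        rw [← o_rot X (f x) (f y), ← o_rot (f c) (f x) (f y)]
        exact hN.near x y (rx.resolve_left h1) (ry.resolve_left h2) hx hy hxy
      · rw [up x h1, up y h2, up z h3] at hne
        rw [up x h1, up y h2, up z h3, if_neg h1, if_neg h2, if_neg h3]
        exact mul_self_pos.2 hne

theorem neg_transfer {A B A' B' : ℝ} (h : A * B < 0) (hA : A ≠ 0 → 0 < A * A')
    (hB : B ≠ 0 → 0 < B * B') : A' * B' < 0 := by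
  have h1 : A ≠ 0 := by
    rintro rfl
    rw [zero_mul] at h
    exact lt_irrefl _ h
  have h2 : B ≠ 0 := by
    rintro rfl
    rw [mul_zero] at h
    exact lt_irrefl _ h
  have h3 := mul_pos (hA h1) (hB h2)
  have h4 : (A * B) * (A' * B') = A * A' * (B * B') := by ring
  rw [← h4] at h3
  by_contra hcon
  have h5 : (A * B) * (A' * B') ≤ 0 :=
    mul_nonpos_of_nonpos_of_nonneg h.le (not_lt.1 hcon)
  exact absurd h3 (not_lt.2 h5)

theorem nxs : NxsStmt := by
  intro V _ c p q v R f X hN hv x y z t hx hy hz ht rx ry rz rt h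
  refine ⟨?_, ?_⟩
  · exact neg_transfer h.1 (fun hne => key hN x y z hx hy hz rx ry rz hne)
      (fun hne => key hN x y t hx hy ht rx ry rt hne)
  · exact neg_transfer h.2 (fun hne => key hN z t x hz ht hx rz rt rx hne)
      (fun hne => key hN z t y hz ht hy rz rt ry hne)

/-- the renaming of the vertices -/
def rho : Fin 3 ⊕ ℕ → Fin 3 ⊕ ℕ
  | Sum.inl X => Sum.inl (X + 2)
  | Sum.inr i => Sum.inr i

theorem vx_rho {V : Type} (a b c : V) (π : ℕ → V) (s : Fin 3 ⊕ ℕ) :
    vx a b c π s = vx b c a π (rho s) := by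
  rcases s with X | i
  · fin_cases X
    · rfl
    · rfl
    · rfl
  · rfl

theorem add2 {X Y : Fin 3} : X + 2 = Y + 2 ↔ X = Y := add_left_inj 2

theorem A2_rho {k : ℕ} {w : ℕ → Fin 3} {s t : Fin 3 ⊕ ℕ} (h : A2 k w s t) :
    A2 k (fun i => w i + 2) (rho s) (rho t) := by
  rcases s with X | i <;> rcases t with Y | j
  · have h' : X ≠ Y := h
    show X + 2 ≠ Y + 2
    exact fun e => h' (add2.1 e)
  · have h' : j < k ∧ ∀ l, l < j → w l ≠ X := h
    show j < k ∧ ∀ l, l < j → w l + 2 ≠ X + 2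
    exact ⟨h'.1, fun l hl e => h'.2 l hl (add2.1 e)⟩
  · have h' : i < k ∧ ∀ l, l < i → w l ≠ Y := h
    show i < k ∧ ∀ l, l < i → w l + 2 ≠ Y + 2
    exact ⟨h'.1, fun l hl e => h'.2 l hl (add2.1 e)⟩
  · have h' : i < k ∧ j < k ∧ ((i < j ∧ ∀ l, i < l → l < j → w l ≠ w i) ∨
      (j < i ∧ ∀ l, j < l → l < i → w l ≠ w j)) := h
    show i < k ∧ j < k ∧ ((i < j ∧ ∀ l, i < l → l < j → w l + 2 ≠ w i + 2) ∨
      (j < i ∧ ∀ l, j < l → l < i → w l + 2 ≠ w j + 2))
    refine ⟨h'.1, h'.2.1, ?_⟩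
    rcases h'.2.2 with ⟨h1, h2⟩ | ⟨h1, h2⟩
    · exact Or.inl ⟨h1, fun l hl hl' e => h2 l hl hl' (add2.1 e)⟩
    · exact Or.inr ⟨h1, fun l hl hl' e => h2 l hl hl' (add2.1 e)⟩

theorem inn_rot {V : Type} {a b c : V} {E : V → V → Prop} {x : V} (h : x ∈ Inn a b c E) :
    x ∈ Inn b c a E := ⟨h.2.1, h.2.2.1, h.1, h.2.2.2⟩

theorem inn_rot' {V : Type} {a b c : V} {E : V → V → Prop} {x : V} (h : x ∈ Inn b c a E) :
    x ∈ Inn a b c E := ⟨h.2.2.1, h.1, h.2.1, h.2.2.2⟩

theorem gro : GroStmt := by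
  intro V a b c E F k w f π h
  refine ⟨h.gp, ?_, ?_, h.fac, h.cr1, ?_, h.pij, ?_, ?_⟩
  · rw [o_rot]
    exact h.tri
  · intro x hx
    obtain ⟨h1, h2, h3⟩ := h.ins x (inn_rot hx)
    exact ⟨h3, h1, h2⟩
  · intro i hi
    exact inn_rot' (h.pin i hi)
  · intro x hx
    exact h.psu x (inn_rot hx)
  · intro s t s' t' hst hst'
    rw [vx_rho a b c π s, vx_rho a b c π t, vx_rho a b c π s', vx_rho a b c π t']
    exact h.cr2 _ _ _ _ (A2_rho hst) (A2_rho hst')

end Pool.Agent.SGP.H32
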